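import Pool.Agent.Helper63.ST.Defs

/-!
# ST-4: Malcev bound for torsion-free abelian groups of finite rank
-/

set_option autoImplicit false

namespace Pool.Agent.ST

open Module TensorProduct

section

variable {B : Type} [AddCommGroup B]

/-- the map `B → ℚ ⊗ B` -/
private noncomputable def st4_i (B : Type) [AddCommGroup B] : B →ₗ[ℤ] (ℚ ⊗[ℤ] B) :=
  TensorProduct.mk ℤ ℚ B 1

private lemma st4_inj (ht : ∀ (n : ℕ) (b : B), 0 < n → n • b = 0 → b = 0) :
    Function.Injective (st4_i B) := by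
  have hloc : IsLocalizedModule (nonZeroDivisors ℤ) (st4_i B) := by
    rw [isLocalizedModule_iff_isBaseChange (nonZeroDivisors ℤ) ℚ]
    exact TensorProduct.isBaseChange ℤ B ℚ
  intro x y hxy
  obtain ⟨c, hc⟩ := (IsLocalizedModule.eq_iff_exists (nonZeroDivisors ℤ) (st4_i B)).mp hxy
  have hc0 : (c : ℤ) ≠ 0 := nonZeroDivisors.coe_ne_zero c
  have h1 : (c : ℤ) • (x - y) = 0 := by
    rw [smul_sub, sub_eq_zero]
    exact hc
  have h2 : ((c : ℤ).natAbs) • (x - y) = 0 := by
    have h3 : ((c : ℤ).natAbs : ℤ) • (x - y) = 0 := by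
      rcases Int.natAbs_eq (c : ℤ) with h | h
      · rw [← h]; exact h1
      · have h4 : ((c : ℤ).natAbs : ℤ) = -(c : ℤ) := by omega
        rw [h4, neg_smul, h1, neg_zero]
    rwa [natCast_zsmul] at h3
  have h3 := ht _ _ (Int.natAbs_pos.mpr hc0) h2
  exact sub_eq_zero.mp h3

private lemma st4_denom (v : ℚ ⊗[ℤ] B) : ∃ (n : ℕ) (b : B), 0 < n ∧ n • v = st4_i B b := by
  induction v using TensorProduct.induction_on with
  | zero => exact ⟨1, 0, one_pos, by simp⟩
  | tmul q b =>
    refine ⟨q.den, q.num • b, q.pos, ?_⟩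
    have h1 : (q.den : ℕ) • (q ⊗ₜ[ℤ] b) = ((q.den : ℕ) • q) ⊗ₜ[ℤ] b := by
      rw [TensorProduct.smul_tmul']
    rw [h1]
    have h2 : (q.den : ℕ) • q = q.num • (1 : ℚ) := by
      rw [nsmul_eq_mul, zsmul_eq_mul, mul_one]
      exact Rat.den_mul_eq_num q
    rw [h2, TensorProduct.smul_tmul]
    rfl
  | add x y hx hy =>
    obtain ⟨n, b, hn, h⟩ := hx
    obtain ⟨n', b', hn', h'⟩ := hy
    refine ⟨n * n', n' • b + n • b', Nat.mul_pos hn hn', ?_⟩
    rw [map_add, map_nsmul, map_nsmul, ← h, ← h', smul_add, smul_smul, smul_smul, mul_comm n' n]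

private lemma st4_rank {r : ℕ} (hr : RankLE B r) : Module.rank ℚ (ℚ ⊗[ℤ] B) ≤ r := by
  classical
  apply rank_le
  intro s hs
  choose n b hn hb using (st4_denom (B := B))
  obtain ⟨t, ht1, ht2⟩ := hr (s.image b)
  have hsub : ∀ x ∈ AddSubgroup.closure (t : Set B),
      st4_i B x ∈ Submodule.span ℚ (st4_i B '' (t : Set B)) := by
    intro x hx
    induction hx using AddSubgroup.closure_induction with
    | mem x hx => exact Submodule.subset_span ⟨x, hx, rfl⟩
    | zero => rw [map_zero]; exact Submodule.zero_mem _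
    | add x y _ _ hx hy => rw [map_add]; exact Submodule.add_mem _ hx hy
    | neg x _ hx => rw [map_neg]; exact Submodule.neg_mem _ hx
  have hv : ∀ v ∈ s, v ∈ Submodule.span ℚ (st4_i B '' (t : Set B)) := by
    intro v hv
    have h1 : b v ∈ AddSubgroup.closure (t : Set B) := by
      rw [ht2]
      apply AddSubgroup.subset_closure
      exact Finset.mem_coe.mpr (Finset.mem_image_of_mem b hv)
    have h2 := hsub _ h1
    rw [← hb v] at h2
    have h3 := Submodule.smul_mem _ ((n v : ℚ)⁻¹) h2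
    rwa [← Nat.cast_smul_eq_nsmul ℚ (n v) v, smul_smul, inv_mul_cancel₀ (by
      have := hn v
      positivity), one_smul] at h3
  have hfin : (st4_i B '' (t : Set B)) = ((t.image (st4_i B) : Finset _) : Set _) := by
    rw [Finset.coe_image]
  rw [hfin] at hv
  have h4 := linearIndependent_le_span' (v := fun i : s => (i : ℚ ⊗[ℤ] B)) hs
    ((t.image (st4_i B) : Finset _) : Set _) (by
      rintro _ ⟨i, rfl⟩
      exact hv i.1 i.2)
  have h5 : s.card ≤ (t.image (st4_i B)).card := by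
    simpa using h4
  exact h5.trans (Finset.card_image_le.trans ht1)

/-- the action on `ℚ ⊗ B` -/
private noncomputable def st4_rho {G : Type} [Group G] (ρ : G →* AddMonoid.End B) :
    G →* Module.End ℚ (ℚ ⊗[ℤ] B) where
  toFun g := LinearMap.baseChange ℚ (AddMonoidHom.toIntLinearMap (ρ g))
  map_one' := by
    have : AddMonoidHom.toIntLinearMap (ρ 1) = (LinearMap.id : B →ₗ[ℤ] B) := by
      rw [map_one]
      rfl
    rw [this, LinearMap.baseChange_id]
    rfl
  map_mul' g h := by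
    have : AddMonoidHom.toIntLinearMap (ρ (g * h)) =
        (AddMonoidHom.toIntLinearMap (ρ g)) ∘ₗ (AddMonoidHom.toIntLinearMap (ρ h)) := by
      rw [map_mul]
      rfl
    rw [this, LinearMap.baseChange_comp]
    rfl

private lemma st4_rho_i {G : Type} [Group G] (ρ : G →* AddMonoid.End B) (g : G) (b : B) :
    st4_rho ρ g (st4_i B b) = st4_i B (ρ g b) := by
  show LinearMap.baseChange ℚ (AddMonoidHom.toIntLinearMap (ρ g)) ((1 : ℚ) ⊗ₜ[ℤ] b) = _
  rw [LinearMap.baseChange_tmul]
  rfl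

private lemma st4_opProd {G : Type} [Group G] (ρ : G →* AddMonoid.End B) (l : List G) :
    ∀ b : B, (l.map fun h => st4_rho ρ h - 1).prod (st4_i B b) = st4_i B (opProd ρ l b) := by
  induction l with
  | nil => intro b; simp [opProd]
  | cons a l ih =>
    intro b
    have h1 : opProd ρ (a :: l) b = ρ a (opProd ρ l b) - opProd ρ l b := by
      simp only [opProd, List.map_cons, List.prod_cons]
      rfl
    rw [h1, map_sub, ← st4_rho_i, List.map_cons, List.prod_cons, Module.End.mul_apply, ih]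
    rfl

end

/-- ST-4 -/
theorem unip_torsionfree {f : ℕ → ℕ} (hf : MalcevBound f) {B : Type} [AddCommGroup B] {r : ℕ}
    (hr : RankLE B r) (ht : ∀ (n : ℕ) (b : B), 0 < n → n • b = 0 → b = 0) :
    UnipBound f B r := by
  intro G _ _ ρ
  have hrank := st4_rank hr
  have hfd : FiniteDimensional ℚ (ℚ ⊗[ℤ] B) :=
    Module.rank_lt_aleph0_iff.mp (hrank.trans_lt (Cardinal.natCast_lt_aleph0))
  have hfr : finrank ℚ (ℚ ⊗[ℤ] B) ≤ r := by
    rw [← Module.finrank_eq_rank] at hrank
    exact_mod_cast hrank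
  obtain ⟨H, h1, h2, h3⟩ := hf r ℚ (ℚ ⊗[ℤ] B) G (st4_rho ρ) hfr
  refine ⟨H, h1, h2, ?_⟩
  intro l hl hH
  have h4 := h3 l hl hH
  ext b
  apply st4_inj ht
  rw [← st4_opProd, h4]
  simp

end Pool.Agent.ST
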